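import Pool.Agent.Helper70K1.SS.Main

/-!
# Parity predictable languages and counting: the theorem
-/

set_option autoImplicit false

namespace Pool.Agent.Helper70K1.SS

open Pool.Agent.NPC Pool.Agent.Helper70K1.SP Pool.Agent.Helper70K1.PP
open Pool.Agent.H623R2.PS (poly_replicate)
open Pool.Agent.NPC.Cnt (SharpP FP CNF satCount vars SatBy parsimonious)

theorem satCount_of_predictable (h : ParityPredictable LS) {g : List Bool → CNF ℕ}
    (hg : NPC.Poly g) : NPC.Poly (fun x => satCount (g x)) := by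
  classical
  obtain ⟨P, gg, hgg, hpred⟩ := h
  have hrf : NPC.Poly (fun x => rf (g x)) := poly_rf hg
  have hro : NPC.Poly (fun x => ro (g x)) := poly_ro hg
  have hvl : NPC.Poly (fun x => vl (g x)) := poly_vl hg
  -- the size parameter
  have hbig : NPC.Poly (fun x : List Bool => (rf (g x), (ro (g x), vl (g x)))) := by
    fun_prop
  obtain ⟨r1, hr1⟩ := hbig.sz_le
  obtain ⟨c0, hc0⟩ := poly_lt_two_pow (PDS P + Polynomial.C 2 * PE P ^ 2)
  set mm : List Bool → ℕ := fun x => r1.eval (4 * x.length + 1) + 10 + c0 with hmm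
  have hmmU : UPoly mm := by
    refine UPoly.add (UPoly.add ?_ (UPoly.const 10)) (UPoly.const c0)
    exact (UPoly.add (UPoly.mul (UPoly.const 4) (UPoly.length NPC.Poly.id))
      (UPoly.const 1)).eval r1
  set WW : List Bool → List Unit := fun x => List.replicate (mm x) () with hWW
  have hWWP : NPC.Poly WW := hmmU
  set rr : List Bool → List ℕ := fun x => List.replicate (vl (g x)).length 0 with hrr
  have hrrP : NPC.Poly rr := poly_replicate (UPoly.length hvl) 0
  set RR : List Bool × ℕ → ℕ := fun z => runG z.2 ((PDS P).eval (mm z.1))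
    (fun r => leafN z.2 (rf (g z.1)) r) (fun _ _ u w => (u + w) % (z.2 + 1))
    (fun os r i => cdP gg P (WW z.1, z.2, rf (g z.1), os, r, i)) (ro (g z.1)) (rr z.1) with hRR
  have hRRP : NPC.Poly RR := by
    have f1 : NPC.Poly (fun x : (List Bool × ℕ) × List Op × List ℕ × ℕ => x.1.1) := by fun_prop
    have hI : NPC.Poly (fun x : (List Bool × ℕ) × List Op × List ℕ × ℕ =>
        ((WW x.1.1, x.1.2, rf (g x.1.1), x.2.1, x.2.2.1, x.2.2.2) : Ins)) := by
      have h1 := hWWP.comp f1
      have h2 := hrf.comp f1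
      fun_prop
    have hmU := uPoly_m hI
    have hMU := hmU.eval (PE P)
    have hM2U : UPoly (fun x : (List Bool × ℕ) × List Op × List ℕ × ℕ => 2 * ((PE P).eval
        (Ins.m (WW x.1.1, x.1.2, rf (g x.1.1), x.2.1, x.2.2.1, x.2.2.2))) ^ 2) := by
      have := hMU.eval (Polynomial.C 2 * Polynomial.X ^ 2)
      simpa using this
    have hrU : UPoly (fun x : (List Bool × ℕ) × List Op × List ℕ × ℕ => rrP ((PE P).eval
        (Ins.m (WW x.1.1, x.1.2, rf (g x.1.1), x.2.1, x.2.2.1, x.2.2.2)))) := upoly_size hM2U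
    have hRB : RB (fun x : (List Bool × ℕ) × List Op × List ℕ × ℕ => rrP ((PE P).eval
        (Ins.m (WW x.1.1, x.1.2, rf (g x.1.1), x.2.1, x.2.2.1, x.2.2.2)))) := by
      refine ⟨hrU, UPoly.of_le (poly_pow2 hrU) (UPoly.add (UPoly.mul (UPoly.const 2) hM2U)
        (UPoly.const 1)) fun x => ?_⟩
      refine (rrP_spec (PE_pos _ _)).2.2.trans (le_of_eq ?_)
      ring
    have hNU : UPoly (fun x : (List Bool × ℕ) × List Op × List ℕ × ℕ => nnP ((PE P).eval
        (Ins.m (WW x.1.1, x.1.2, rf (g x.1.1), x.2.1, x.2.2.1, x.2.2.2)))) := by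
      have h1 := (hMU.eval (Polynomial.X ^ 2)).mul hRB.four
      unfold nnP
      simpa using h1
    have hFP := poly_findF hRB.hr hRB.h1
    have hcdP : NPC.Poly (fun x : (List Bool × ℕ) × List Op × List ℕ × ℕ =>
        cdP gg P (WW x.1.1, x.1.2, rf (g x.1.1), x.2.1, x.2.2.1, x.2.2.2)) := by
      unfold cdP
      refine NPC.Poly.filter (p := fun (x : (List Bool × ℕ) × List Op × List ℕ × ℕ) cs =>
        cs.all fun a => decide (a ≤ Ins.p (WW x.1.1, x.1.2, rf (g x.1.1), x.2.1, x.2.2.1,
          x.2.2.2)))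
        (NPC.Poly.map (F := fun (x : (List Bool × ℕ) × List Op × List ℕ × ℕ) V =>
          cf (Ins.m (WW x.1.1, x.1.2, rf (g x.1.1), x.2.1, x.2.2.1, x.2.2.2)) V) ?_ ?_) ?_
      · refine poly_listP hgg (qb := fun (x : (List Bool × ℕ) × List Op × List ℕ × ℕ) j q t i =>
          bits (((WW x.1.1, x.1.2, rf (g x.1.1), x.2.1, x.2.2.1, x.2.2.2), j, q,
            findF (rrP ((PE P).eval (Ins.m (WW x.1.1, x.1.2, rf (g x.1.1), x.2.1, x.2.2.1,
              x.2.2.2)))), t, i) : QryP)) ?_
          hMU hNU (fun x => nnP_pos (PE_pos _ _)) hRB (UPoly.mul hmU hmU) hFP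
        refine poly_bits ?_
        have hI' := hI.comp (f := fun x : ((List Bool × ℕ) × List Op × List ℕ × ℕ) ×
          ℕ × ℕ × ℕ × ℕ => x.1) (NPC.Poly.fst NPC.Poly.id)
        have hF' := hFP.comp (f := fun x : ((List Bool × ℕ) × List Op × List ℕ × ℕ) ×
          ℕ × ℕ × ℕ × ℕ => x.1) (NPC.Poly.fst NPC.Poly.id)
        exact NPC.Poly.pair hI' (NPC.Poly.pair (by fun_prop) (NPC.Poly.pair (by fun_prop)
          (NPC.Poly.pair hF' (by fun_prop))))
      · exact poly_cf ((uPoly_m hI).comp (NPC.Poly.fst NPC.Poly.id)) (NPC.Poly.snd NPC.Poly.id)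
      · refine NPC.Poly.all (l := fun x : ((List Bool × ℕ) × List Op × List ℕ × ℕ) × List ℕ => x.2)
          (p := fun x a => decide (a ≤ Ins.p (WW x.1.1.1, x.1.1.2, rf (g x.1.1.1), x.1.2.1,
            x.1.2.2.1, x.1.2.2.2))) (by fun_prop) ?_
        have h1 := (poly_p hI).comp (f := fun x : (((List Bool × ℕ) × List Op × List ℕ × ℕ) ×
          List ℕ) × ℕ => x.1.1) (NPC.Poly.fst (NPC.Poly.fst NPC.Poly.id))
        exact NPC.Poly.decide_le (NPC.Poly.snd NPC.Poly.id) h1
    have h2 : NPC.Poly (fun z : List Bool × ℕ => z.2) := by fun_prop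
    exact poly_runG (p := fun z : List Bool × ℕ => z.2) (D := fun z => (PDS P).eval (mm z.1))
      (lv := fun z r => leafN z.2 (rf (g z.1)) r) (cm := fun z _ _ u w => (u + w) % (z.2 + 1))
      (cd := fun z os r i => cdP gg P (WW z.1, z.2, rf (g z.1), os, r, i)) h2
      ((hmmU.comp (NPC.Poly.fst NPC.Poly.id)).eval (PDS P)) hcdP (by
        have h3 := hrf.comp (f := fun x : (List Bool × ℕ) × List ℕ => x.1.1)
          (NPC.Poly.fst (NPC.Poly.fst NPC.Poly.id))
        exact poly_leafN (p := fun x : (List Bool × ℕ) × List ℕ => x.1.2)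
          (F := fun x => rf (g x.1.1)) (r := fun x => x.2) (by fun_prop) h3 (by fun_prop))
      (fun z r => leafN_le _ _ _) (by fun_prop)
      (fun z o y u w => ((Nat.mod_lt _ (Nat.succ_pos _)).le))
      (os := fun z => ro (g z.1)) (r := fun z => rr z.1)
      (hro.comp (NPC.Poly.fst NPC.Poly.id)) (hrrP.comp (NPC.Poly.fst NPC.Poly.id))
  -- the reconstruction
  have hDU : UPoly (fun x => (PDS P).eval (mm x)) := hmmU.eval (PDS P)
  have hMU' : UPoly (fun x => (PMP P).eval (mm x)) := hmmU.eval (PMP P)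
  have hprs : NPC.Poly (fun x => prs ((PMP P).eval (mm x)) ((PDS P).eval (mm x))) := by
    unfold prs
    refine NPC.Poly.filter (p := fun x q => decide ((PMP P).eval (mm x) < q) &&
      primeN ((PDS P).eval (mm x)) q) hDU.range ?_
    have h1 : NPC.Poly (fun x : List Bool × ℕ => primeN ((PDS P).eval (mm x.1)) x.2) :=
      poly_primeN (hDU.comp (NPC.Poly.fst NPC.Poly.id)) (NPC.Poly.snd NPC.Poly.id)
    have h2 : NPC.Poly (fun x : List Bool × ℕ => (PMP P).eval (mm x.1)) :=
      hMU'.toPoly.comp (NPC.Poly.fst NPC.Poly.id)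
    fun_prop
  have hfin : NPC.Poly (fun x => crt ((PDS P).eval (mm x)) (2 ^ (vl (g x)).length + 1)
      ((prs ((PMP P).eval (mm x)) ((PDS P).eval (mm x))).map fun q => (q, RR (x, q - 1) % q))) := by
    refine poly_crt hDU ?_ (NPC.Poly.map (F := fun x q => (q, RR (x, q - 1) % q)) hprs ?_) ?_
    · have h1 := poly_pow2 (UPoly.length hvl)
      fun_prop
    · have h1 : NPC.Poly (fun x : List Bool × ℕ => RR (x.1, x.2 - 1)) :=
        hRRP.comp (f := fun x : List Bool × ℕ => (x.1, x.2 - 1)) (by fun_prop)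
      fun_prop
    · intro x e he
      obtain ⟨q, hq, rfl⟩ := List.mem_map.1 he
      obtain ⟨h1, h2, h3⟩ := mem_prs.1 hq
      exact ⟨h3.pos, h1.le⟩
  refine hfin.congr fun x => ?_
  -- correctness
  set m := mm x with hm
  have hsz : sz (rf (g x)) + sz (ro (g x)) + sz (vl (g x)) + 10 + c0 ≤ m := by
    have h1 := hr1 x
    have h2 := sz_listBool_le x
    have h3 := eval_mono r1 h2
    simp only [sz_pair] at h1
    rw [hm, hmm]
    simp only
    omega
  have hn : (vl (g x)).length < sz (vl (g x)) := length_lt_sz _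
  have hpow := hc0 m (by omega)
  rw [Polynomial.eval_add] at hpow
  have hPDS : (PDS P).eval m = 2 * ((PMP P).eval m + m + 3 + 4) ^ 2 + 1 := by
    simp [PDS, PAS]
  have h2M : 2 * (PE P).eval m ^ 2 < 2 ^ m := by
    have h1 : 2 * (PE P).eval m ^ 2 = (Polynomial.C 2 * PE P ^ 2).eval m := by simp
    omega
  have hdegleaf : ((rf (g x)).map List.length).sum < m := by
    have key : ∀ F : List (List (Bool × ℕ)), (F.map List.length).sum + 1 ≤ sz F := by
      intro F
      induction F with
      | nil => simp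
      | cons c F ih =>
        have := length_lt_sz c
        simp only [List.map_cons, List.sum_cons, sz_list_cons]
        omega
    have := key (rf (g x))
    omega
  refine crt_eq (fun e he => ?_) ?_ (Nat.lt_succ_of_le (satCount_le _)) ?_
  · obtain ⟨q, hq, rfl⟩ := List.mem_map.1 he
    obtain ⟨h1, h2, h3⟩ := mem_prs.1 hq
    refine ⟨h3, h1.le, ?_⟩
    obtain ⟨p, rfl⟩ : ∃ p, q = p + 1 := ⟨q - 1, by have := h3.pos; omega⟩
    have : Fact (p + 1).Prime := ⟨h3⟩
    have hrc := runS_correct (P := P) (gg := gg) hpred (m := m) (p := p)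
      (n := (vl (g x)).length) (D := (PDS P).eval m) (F := rf (g x)) (os0 := ro (g x))
      (by omega) (by omega) (by omega) h2M (by omega) (by omega) (by omega) (ro_idx _) hdegleaf
    rw [vS_rf] at hrc
    have h4 := (ZMod.natCast_eq_natCast_iff' _ _ _).1 hrc
    simp only [Nat.add_sub_cancel]
    exact h4.symm
  · rw [List.map_map]
    have e : (Prod.fst ∘ fun q => (q, RR (x, q - 1) % q)) = id := by
      funext q
      rfl
    rw [e, List.map_id]
    exact nodup_prs _ _
  · rw [List.length_map, hPDS]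
    have h1 := length_prs (M := (PMP P).eval m) (m := m)
    calc 2 ^ (vl (g x)).length + 1 ≤ 2 ^ ((vl (g x)).length + 1) := by
          rw [pow_succ]
          have := Nat.one_le_two_pow (n := (vl (g x)).length)
          omega
      _ ≤ _ := Nat.pow_le_pow_right (by norm_num) (by omega)

theorem fp_of_poly {h : List Bool → ℕ} (hh : NPC.Poly h) : FP h := by
  have h1 : NPC.Poly (fun x : List Bool => (h x).bits) := Poly.natBits hh
  exact polyTime_of_typed h1

theorem fp_of_predictable (h : ParityPredictable LS) {f : List Bool → ℕ} (hf : SharpP f) :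
    FP f := by
  obtain ⟨V, p, hV, hf⟩ := hf
  obtain ⟨G, hG, hGf⟩ := parsimonious hV p
  have h1 : NPC.Poly G := PC.comp hG Cnt.pc_raw
  have h2 := satCount_of_predictable h h1
  exact fp_of_poly (h2.congr fun x => by rw [hf x, ← hGf x])

theorem inP_of_fp (h : ∀ f : List Bool → ℕ, SharpP f → FP f) {L : Set (List Bool)}
    (hL : InPSharpP L) : InP L := by
  obtain ⟨f, D, hf, hD, hfL⟩ := hL
  have h1 : NPC.Poly (fun x : List Bool => (f x).bits) := poly_of_polyTime (h f hf)
  have h2 : NPC.Poly (fun x : List Bool => D (pairBits x (f x).bits)) :=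
    (poly_of_polyTime hD).comp (by unfold pairBits; fun_prop)
  exact ⟨fun x => D (pairBits x (f x).bits), polyTime_of_typed h2, hfL⟩

/-- **Theorem.** Every function in `#P` is computable in polynomial time if and only if some
language that is hard for the languages decided with one value of a `#P` function is parity
predictable. -/
theorem sharpP_iff : (∃ K : Set (List Bool), SharpPHardLang K ∧ ParityPredictable K) ↔
    ∀ f : List Bool → ℕ, SharpP f → FP f := by
  constructor
  · rintro ⟨K, hK, hp⟩ f hf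
    exact fp_of_predictable (hp.of_reduces (hK LS inPSharpP_LS)) hf
  · intro h
    refine ⟨{[true]}, fun L hL => ?_, predictable_of_inP ⟨fun x => x,
      polyTime_of_typed NPC.Poly.id, fun x => Iff.rfl⟩⟩
    obtain ⟨V, hV, hVL⟩ := inP_of_fp h hL
    exact ⟨V, hV, fun x => hVL x⟩

end Pool.Agent.Helper70K1.SS
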