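import Pool.Agent.Helper70K1.SS.Sum
import Pool.Agent.H527R2.NM

/-!
# The number of satisfying assignments as a sum
-/

set_option autoImplicit false

namespace Pool.Agent.Helper70K1.SS

open Pool.Agent.NPC Pool.Agent.Helper70K1.SP
open Pool.Agent.NPC.Cnt (CNF satCount SatBy vars mem_vars)

theorem vS_powerset {R : Type} [CommSemiring R] (leaf : (ℕ → R) → R) : ∀ (L : List ℕ), L.Nodup →
    ∀ r : ℕ → R, vS leaf (L.map fun v => ((none, v) : Op)) r =
      ∑ S ∈ L.toFinset.powerset, leaf (fun j => if j ∈ L then (if j ∈ S then 1 else 0) else r j)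
  | [], _, r => by simp [vS]
  | v :: L, hL, r => by
    obtain ⟨hv, hL'⟩ := List.nodup_cons.1 hL
    rw [List.map_cons, vS, vS_powerset leaf L hL', vS_powerset leaf L hL', List.toFinset_cons,
      Finset.sum_powerset_insert (by simpa using hv)]
    congr 1
    · refine Finset.sum_congr rfl fun S hS => ?_
      have hvS : v ∉ S := fun h => hv (by simpa using Finset.mem_powerset.1 hS h)
      congr 1
      funext j
      by_cases hj : j = v
      · subst hj; simp [hv, hvS]
      · by_cases hjL : j ∈ L <;> simp [hj, hjL]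
    · refine Finset.sum_congr rfl fun S hS => ?_
      have hvS : v ∉ S := fun h => hv (by simpa using Finset.mem_powerset.1 hS h)
      congr 1
      funext j
      by_cases hj : j = v
      · subst hj; simp [hv]
      · by_cases hjL : j ∈ L <;> simp [hj, hjL]

theorem leafB_iff (φ : CNF ℕ) (S : Finset ℕ) :
    leafB φ (fun j => decide (j ∈ S)) = true ↔ SatBy S φ := by
  unfold leafB SatBy
  simp only [List.all_eq_true, List.any_eq_true, beq_iff_eq]
  constructor
  · intro h c hc
    obtain ⟨l, hl, h1⟩ := h c hc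
    exact ⟨l, hl, h1.symm⟩
  · intro h c hc
    obtain ⟨l, hl, h1⟩ := h c hc
    exact ⟨l, hl, h1.symm⟩

theorem vS_satCount {R : Type} [CommRing R] (φ : CNF ℕ) {L : List ℕ} (hL : L.Nodup)
    (hLv : L.toFinset = vars φ) :
    vS (leafC φ) (L.map fun v => ((none, v) : Op)) (fun _ => 0) = ((satCount φ : ℕ) : R) := by
  rw [vS_powerset _ L hL, hLv]
  have h1 : ∀ S ∈ (vars φ).powerset, leafC φ (fun j => if j ∈ L then (if j ∈ S then 1 else 0)
      else 0) = if SatBy S φ then (1 : R) else 0 := by
    intro S hS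
    have e : (fun j => if j ∈ L then (if j ∈ S then 1 else 0) else 0) =
        fun j => (bit (decide (j ∈ S)) : R) := by
      funext j
      by_cases h : j ∈ S
      · have h2 : j ∈ L := by
          have h3 := Finset.mem_powerset.1 hS h
          rw [← hLv] at h3
          simpa using h3
        simp [h, h2]
      · simp [h]
    rw [e, leafC_bit]
    by_cases h : SatBy S φ
    · rw [if_pos h, (leafB_iff φ S).2 h, bit_true]
    · have h2 : leafB φ (fun j => decide (j ∈ S)) = false := by
        rw [Bool.eq_false_iff]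
        exact fun h3 => h ((leafB_iff φ S).1 h3)
      rw [if_neg h, h2, bit_false]
  rw [Finset.sum_congr rfl h1, Finset.sum_boole]
  rfl

/-! ### Renaming -/

/-- Renaming of the variables. -/
def ren (σ : ℕ → ℕ) (φ : List (List (Bool × ℕ))) : List (List (Bool × ℕ)) :=
  φ.map fun c => c.map fun l => (l.1, σ l.2)

theorem leafC_ren {R : Type} [CommRing R] {σ : ℕ → ℕ} {φ : List (List (Bool × ℕ))}
    {r r' : ℕ → R} (h : ∀ c ∈ φ, ∀ l ∈ c, r' (σ l.2) = r l.2) :
    leafC (ren σ φ) r' = leafC φ r := by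
  unfold leafC ren
  rw [List.map_map]
  congr 1
  refine List.map_congr_left fun c hc => ?_
  simp only [Function.comp, List.map_map]
  congr 2
  refine List.map_congr_left fun l hl => ?_
  simp only [Function.comp]
  rw [h c hc l hl]

theorem vS_ren {R : Type} [CommRing R] {σ : ℕ → ℕ} {φ : List (List (Bool × ℕ))} {L : List ℕ}
    (hσ : ∀ v ∈ L, ∀ w ∈ L, σ v = σ w → v = w) (hv : ∀ c ∈ φ, ∀ l ∈ c, l.2 ∈ L) :
    ∀ (L' : List ℕ), (∀ v ∈ L', v ∈ L) → ∀ r r' : ℕ → R, (∀ v ∈ L, r' (σ v) = r v) →
      vS (leafC (ren σ φ)) (L'.map fun v => ((none, σ v) : Op)) r' =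
        vS (leafC φ) (L'.map fun v => ((none, v) : Op)) r
  | [], _, r, r', h => leafC_ren fun c hc l hl => h _ (hv c hc l hl)
  | v :: L', hL', r, r', h => by
    have h1 : ∀ b : R, ∀ w ∈ L, Function.update r' (σ v) b (σ w) = Function.update r v b w := by
      intro b w hw
      by_cases hvw : w = v
      · subst hvw; simp
      · rw [Function.update_of_ne hvw, Function.update_of_ne, h w hw]
        exact fun h2 => hvw (hσ w hw v (hL' v List.mem_cons_self) h2)
    rw [List.map_cons, List.map_cons, vS, vS]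
    simp only
    rw [vS_ren hσ hv L' (fun w hw => hL' w (List.mem_cons_of_mem _ hw)) _ _ (h1 0),
      vS_ren hσ hv L' (fun w hw => hL' w (List.mem_cons_of_mem _ hw)) _ _ (h1 1)]

/-- The elements of a list, without repetitions. -/
def uq (l : List ℕ) : List ℕ := l.foldr (fun a acc => a :: acc.filter fun b => !decide (b = a)) []

theorem uq_cons (a : ℕ) (l : List ℕ) : uq (a :: l) = a :: (uq l).filter fun b => !decide (b = a) :=
  rfl

theorem mem_uq {a : ℕ} : ∀ {l : List ℕ}, a ∈ uq l ↔ a ∈ l
  | [] => Iff.rfl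
  | b :: l => by
    rw [uq_cons, List.mem_cons, List.mem_filter, mem_uq (l := l), List.mem_cons]
    by_cases h : a = b <;> simp [h]

theorem uq_nodup : ∀ (l : List ℕ), (uq l).Nodup
  | [] => List.nodup_nil
  | a :: l => by
    rw [uq_cons, List.nodup_cons]
    refine ⟨by simp, (uq_nodup l).filter _⟩

theorem length_uq_le : ∀ (l : List ℕ), (uq l).length ≤ l.length
  | [] => le_rfl
  | a :: l => by
    rw [uq_cons, List.length_cons, List.length_cons]
    exact Nat.succ_le_succ ((List.length_filter_le _ _).trans (length_uq_le l))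

/-- The variables of a formula, without repetitions. -/
def vl (φ : CNF ℕ) : List ℕ := uq (φ.flatten.map Prod.snd)

theorem vl_toFinset (φ : CNF ℕ) : (vl φ).toFinset = vars φ := by
  unfold vars vl
  ext v
  simp only [List.mem_toFinset, mem_uq]

theorem mem_vl {φ : CNF ℕ} {c : List (Bool × ℕ)} (hc : c ∈ φ) {l : Bool × ℕ} (hl : l ∈ c) :
    l.2 ∈ vl φ := mem_uq.2 (List.mem_map.2 ⟨l, List.mem_flatten.2 ⟨c, hc, hl⟩, rfl⟩)

/-- The formula with renamed variables. -/
def rf (φ : CNF ℕ) : List (List (Bool × ℕ)) := ren (fun v => (vl φ).idxOf v) φ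

/-- The operations: summation over all the variables. -/
def ro (φ : CNF ℕ) : List Op := (vl φ).map fun v => ((none, (vl φ).idxOf v) : Op)

theorem vS_rf {R : Type} [CommRing R] (φ : CNF ℕ) :
    vS (leafC (rf φ)) (ro φ) (fun _ => 0) = ((satCount φ : ℕ) : R) := by
  rw [← vS_satCount φ (uq_nodup _) (vl_toFinset φ)]
  refine vS_ren (L := vl φ) (fun v hv w hw h => ?_) (fun c hc l hl => mem_vl hc hl) (vl φ)
    (fun v hv => hv) _ _ fun _ _ => rfl
  exact (List.idxOf_inj hv).1 h

theorem ro_idx (φ : CNF ℕ) : ∀ o ∈ ro φ, o.2 < (vl φ).length := by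
  intro o ho
  obtain ⟨v, hv, rfl⟩ := List.mem_map.1 ho
  exact List.idxOf_lt_length_of_mem hv

end Pool.Agent.Helper70K1.SS
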