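import Pool.Agent.Helper70K1.SS.Count
import Pool.Agent.Helper70K1.PP.Main
import Pool.Agent.H527R3.Toda.CountP

/-!
# The language of the bits of the words of the round polynomials of sums
-/

set_option autoImplicit false

namespace Pool.Agent.Helper70K1.SS

open Pool.Agent.NPC Pool.Agent.Helper70K1.SP Pool.Agent.Helper70K1.PP
open Pool.Agent.NPC.Cnt (SharpP FP CountP strFn strFn_bits bsum)

/-- The languages decided in polynomial time from the input `x` and the value (in binary) of one
function in `#P` at `x`. -/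
def InPSharpP (L : Set (List Bool)) : Prop :=
  ∃ (f : List Bool → ℕ) (D : List Bool → List Bool), SharpP f ∧ PolyTime D ∧
    ∀ x, x ∈ L ↔ D (pairBits x (f x).bits) = [true]

/-- `K` is hard for the languages decided in polynomial time with one value of a function in `#P`,
under polynomial-time many-one reductions. -/
def SharpPHardLang (K : Set (List Bool)) : Prop :=
  ∀ L : Set (List Bool), InPSharpP L → Reduces L K

/-- The point with the values of the variables of the operations changed. -/
def asg (os : List Op) (y : List Bool) (r : List ℕ) : List ℕ :=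
  (os.zip y).foldl (fun r e => r.set e.1.2 e.2.toNat) r

theorem vS_eq_bsum (leaf : (ℕ → ℕ) → ℕ) : ∀ (os : List Op) (r : List ℕ),
    (∀ o ∈ os, o.2 < r.length) → vS leaf os (fun j => r.getD j 0) =
      bsum os.length (fun y => leaf (fun j => (asg os y r).getD j 0))
  | [], r, _ => rfl
  | o :: os, r, h => by
    have hi : o.2 < r.length := h o List.mem_cons_self
    have e : ∀ b : ℕ, Function.update (fun j => r.getD j 0) o.2 b =
        fun j => (r.set o.2 b).getD j 0 := by
      intro b
      rw [getD_set_eq hi]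
      funext j
      by_cases hj : j = o.2
      · subst hj; simp
      · simp [hj]
    have h' : ∀ b : ℕ, ∀ o' ∈ os, o'.2 < (r.set o.2 b).length := fun b o' ho' => by
      rw [List.length_set]
      exact h o' (List.mem_cons_of_mem _ ho')
    rw [vS, e, e, vS_eq_bsum leaf os _ (h' 0), vS_eq_bsum leaf os _ (h' 1), List.length_cons,
      Cnt.bsum_succ]
    rfl

/-- The big value of an instance, as a sum over strings. -/
def gL (I : Ins) : ℕ :=
  bsum I.os.length (fun y => lf I.p I.F (fun j => (asg I.os y (I.r.set I.i (bI I))).getD j 0))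

theorem gL_eq {I : Ins} (h : ∀ o ∈ I.os, o.2 < I.r.length) : gL I = gI I := by
  rw [gL, gI, vS_eq_bsum _ _ _ fun o ho => by rw [List.length_set]; exact h o ho]

/-- The language of the bits of the words. -/
def LS : Set (List Bool) :=
  {x | (unbits QryP x).elim false (fun Q => rhoP Q (vI Q.1 (gL Q.1))) = true}

theorem mem_LS {I : Ins} (h : ∀ o ∈ I.os, o.2 < I.r.length) (hV : vI I (gI I) < 2 ^ (I.m * I.m))
    (j q : ℕ) (f : List Bool) (t i : ℕ) :
    bits ((I, j, q, f, t, i) : QryP) ∈ LS ↔ bitP f t (vI I (gI I) % 2 ^ j % q) i = true := by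
  change (unbits QryP (bits ((I, j, q, f, t, i) : QryP))).elim false
    (fun Q => rhoP Q (vI Q.1 (gL Q.1))) = true ↔ _
  rw [unbits_bits]
  simp only [Option.elim]
  rw [gL_eq h]
  unfold rhoP
  simp only
  rcases le_total j (I.m * I.m) with h2 | h2
  · rw [min_eq_left h2]
  · rw [min_eq_right h2, Nat.mod_eq_of_lt hV, Nat.mod_eq_of_lt (lt_of_lt_of_le hV
      (Nat.pow_le_pow_right (by norm_num) h2))]

/-! ### Complexity -/

variable {α : Type} [TEnc α]

theorem poly_lf {P : α → ℕ} {F : α → List (List (Bool × ℕ))} {r : α → ℕ → ℕ} (hP : NPC.Poly P)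
    (hF : NPC.Poly F) (hr : NPC.Poly (fun x : α × ℕ => r x.1 x.2)) :
    NPC.Poly (fun a => lf (P a) (F a) (r a)) := by
  unfold lf
  refine Uc.poly_prod (NPC.Poly.map (F := fun a c => 1 + P a * (c.map fun l =>
    if l.1 = true then 1 + P a * r a l.2 else r a l.2).prod) hF ?_)
  have h1 : NPC.Poly (fun x : α × List (Bool × ℕ) => (x.2.map fun l =>
      if l.1 = true then 1 + P x.1 * r x.1 l.2 else r x.1 l.2).prod) := by
    refine Uc.poly_prod (NPC.Poly.map (l := fun x : α × List (Bool × ℕ) => x.2)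
      (F := fun (x : α × List (Bool × ℕ)) (l : Bool × ℕ) =>
      if l.1 = true then 1 + P x.1 * r x.1 l.2 else r x.1 l.2) (by fun_prop) ?_)
    have h2 : NPC.Poly (fun y : (α × List (Bool × ℕ)) × (Bool × ℕ) => r y.1.1 y.2.2) :=
      hr.comp (f := fun y : (α × List (Bool × ℕ)) × (Bool × ℕ) => (y.1.1, y.2.2)) (by fun_prop)
    have h3 : NPC.Poly (fun y : (α × List (Bool × ℕ)) × (Bool × ℕ) => P y.1.1) :=
      hP.comp (by fun_prop)
    fun_prop
  have h4 : NPC.Poly (fun x : α × List (Bool × ℕ) => P x.1) := hP.comp (by fun_prop)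
  fun_prop

theorem sz_asg_le : ∀ (l : List (Op × Bool)) (r : List ℕ),
    sz (l.foldl (fun r e => r.set e.1.2 e.2.toNat) r) ≤ sz r + 5 * l.length
  | [], r => by simp
  | e :: l, r => by
    have h1 := sz_asg_le l (r.set e.1.2 e.2.toNat)
    have h2 := sz_set_le r e.1.2 e.2.toNat
    have h3 : sz e.2.toNat ≤ 5 := by
      cases e.2 <;> simp [sz_nat]
    rw [List.foldl_cons, List.length_cons]
    omega

theorem poly_asg {os : α → List Op} {y : α → List Bool} {r : α → List ℕ} (hos : NPC.Poly os)
    (hy : NPC.Poly y) (hr : NPC.Poly r) : NPC.Poly (fun a => asg (os a) (y a) (r a)) := by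
  have hz : NPC.Poly (fun a => (os a).zip (y a)) := by fun_prop
  obtain ⟨r1, hr1⟩ := hz.sz_le
  obtain ⟨r2, hr2⟩ := hr.sz_le
  unfold asg
  refine NPC.Poly.foldl (F := fun _ r e => r.set e.1.2 e.2.toNat) hz hr ?_
    (r2 + Polynomial.C 5 * r1) fun a k hk => ?_
  · have h1 : NPC.Poly (fun x : α × List ℕ × (Op × Bool) => (bif x.2.2.2 then 1 else 0 : ℕ)) := by
      fun_prop
    refine (poly_set (l := fun x : α × List ℕ × (Op × Bool) => x.2.1)
      (n := fun x => x.2.2.1.2) (v := fun x => (bif x.2.2.2 then 1 else 0 : ℕ)) (by fun_prop)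
      (by fun_prop) h1).congr fun x => ?_
    cases x.2.2.2 <;> rfl
  · have h1 := sz_asg_le (((os a).zip (y a)).take k) (r a)
    have h2 := hr1 a
    have h3 := hr2 a
    have h4 : (((os a).zip (y a)).take k).length ≤ sz ((os a).zip (y a)) := by
      rw [List.length_take]
      have := length_lt_sz ((os a).zip (y a))
      omega
    simp only [Polynomial.eval_add, Polynomial.eval_mul, Polynomial.eval_C]
    omega

theorem poly_bI {I : α → Ins} (hI : NPC.Poly I) : NPC.Poly (fun a => bI (I a)) := by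
  unfold bI
  have h1 : NPC.Poly (fun a => 2 ^ (I a).os.length) := poly_pow2 (UPoly.length (poly_os hI))
  have h2 : NPC.Poly (fun a => lf (I a).p (I a).F (fun _ => (I a).p + 1)) := by
    refine poly_lf (poly_p hI) (poly_F hI) (r := fun a _ => (I a).p + 1) ?_
    have := (poly_p hI).comp (f := fun x : α × ℕ => x.1) (NPC.Poly.fst NPC.Poly.id)
    fun_prop
  fun_prop

theorem countP_gL : CountP (fun Q : QryP => gL Q.1) := by
  unfold gL
  refine CountP.bsum (f := fun x : QryP × List Bool => lf x.1.1.p x.1.1.F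
    (fun j => (asg x.1.1.os x.2 (x.1.1.r.set x.1.1.i (bI x.1.1))).getD j 0))
    (n := fun Q : QryP => Q.1.os.length) (CountP.ofPoly ?_)
    (UPoly.length (poly_os (NPC.Poly.fst NPC.Poly.id)))
  have hI : NPC.Poly (fun x : QryP × List Bool => x.1.1) := by fun_prop
  have h1 : NPC.Poly (fun x : QryP × List Bool => x.1.1.r.set x.1.1.i (bI x.1.1)) :=
    poly_set (poly_r hI) (poly_i hI) (poly_bI hI)
  have h2 : NPC.Poly (fun x : QryP × List Bool =>
      asg x.1.1.os x.2 (x.1.1.r.set x.1.1.i (bI x.1.1))) :=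
    poly_asg (poly_os hI) (by fun_prop) h1
  refine poly_lf (poly_p hI) (poly_F hI) ?_
  have h3 := h2.comp (f := fun x : (QryP × List Bool) × ℕ => x.1) (NPC.Poly.fst NPC.Poly.id)
  fun_prop

theorem sum_map_range (f : ℕ → ℕ) : ∀ m : ℕ,
    ((List.range m).map f).sum = ∑ j ∈ Finset.range m, f j
  | 0 => by simp
  | m + 1 => by
    rw [List.range_succ, List.map_append, List.sum_append, sum_map_range f m,
      Finset.sum_range_succ]
    simp

theorem poly_vI {I : α → Ins} {G : α → ℕ} (hI : NPC.Poly I) (hG : NPC.Poly G) :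
    NPC.Poly (fun a => vI (I a) (G a)) := by
  have hb := poly_bI hI
  have h1 : NPC.Poly (fun x : α × ℕ => bI (I x.1) ^ min x.2 (I x.1).m) := by
    refine Uc.poly_upow (Uc.upoly_min ((uPoly_m hI).comp (NPC.Poly.fst NPC.Poly.id))
      (NPC.Poly.snd NPC.Poly.id)) (hb.comp (NPC.Poly.fst NPC.Poly.id))
  have h2 : NPC.Poly (fun x : α × ℕ => 2 ^ ((I x.1).m * min x.2 (I x.1).m)) := by
    refine poly_pow2 (UPoly.mul ((uPoly_m hI).comp (NPC.Poly.fst NPC.Poly.id))
      (Uc.upoly_min ((uPoly_m hI).comp (NPC.Poly.fst NPC.Poly.id)) (NPC.Poly.snd NPC.Poly.id)))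
  have h3 : NPC.Poly (fun x : α × ℕ => bI (I x.1)) := hb.comp (NPC.Poly.fst NPC.Poly.id)
  have h4 : NPC.Poly (fun x : α × ℕ => G x.1) := hG.comp (NPC.Poly.fst NPC.Poly.id)
  have h5 : NPC.Poly (fun x : α × ℕ => (I x.1).p) := (poly_p hI).comp (NPC.Poly.fst NPC.Poly.id)
  have h6 : NPC.Poly (fun a => (((List.range (I a).m).map fun j =>
      (G a / bI (I a) ^ min j (I a).m % bI (I a) % ((I a).p + 1)) *
        2 ^ ((I a).m * min j (I a).m)).sum)) := by
    refine NPC.Poly.sum (NPC.Poly.map (F := fun a j =>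
      (G a / bI (I a) ^ min j (I a).m % bI (I a) % ((I a).p + 1)) *
        2 ^ ((I a).m * min j (I a).m)) (uPoly_m hI).range ?_)
    fun_prop
  refine h6.congr fun a => ?_
  unfold vI
  rw [ofDigits_range, sum_map_range]
  refine Finset.sum_congr rfl fun j hj => ?_
  rw [Finset.mem_range] at hj
  rw [min_eq_left hj.le, pow_mul]

/-- The two kinds of decoders. -/
def cntDec {β : Type} [TEnc β] [NPC.TDec β] : Cnt.TDec β :=
  ⟨NPC.TDec.dec, NPC.TDec.poly_dec, fun t a => ⟨NPC.TDec.toT_dec t a, fun h => by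
    rw [← h]
    exact NPC.TDec.dec_toT a⟩⟩

/-- The language is decided with one value of a function in `#P`. -/
theorem inPSharpP_LS : InPSharpP LS := by
  refine ⟨strFn (fun Q : QryP => gL Q.1), fun y =>
    [(unbits QryP (unpair y).1).elim false (fun Q => rhoP Q (vI Q.1 (valB (unpair y).2)))],
    @CountP.sharpP _ _ cntDec _ countP_gL, polyTime_of_poly ?_, fun x => ?_⟩
  · refine NPC.Poly.optElim (o := fun y : List Bool => unbits QryP (unpair y).1)
      (g := fun _ => false) (h := fun y (Q : QryP) => rhoP Q (vI Q.1 (valB (unpair y).2)))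
      (poly_unbits.comp (NPC.Poly.fst poly_unpair)) (NPC.Poly.const _) ?_
    have h1 : NPC.Poly (fun x : List Bool × QryP => valB (unpair x.1).2) :=
      NPC.Poly.valBits ((NPC.Poly.snd poly_unpair).comp (NPC.Poly.fst NPC.Poly.id))
    have h2 : NPC.Poly (fun x : List Bool × QryP => vI x.2.1 (valB (unpair x.1).2)) :=
      poly_vI (by fun_prop) h1
    exact poly_rhoP.comp (f := fun x : List Bool × QryP => (x.2, vI x.2.1 (valB (unpair x.1).2)))
      (NPC.Poly.pair (by fun_prop) h2)
  · simp only [unpair_pairBits, List.cons.injEq, and_true]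
    change (unbits QryP x).elim false (fun Q => rhoP Q (vI Q.1 (gL Q.1))) = true ↔ _
    cases hx : unbits QryP x with
    | none => simp
    | some Q =>
      simp only [Option.elim]
      have h1 : bits Q = x := bits_of_unbits hx
      rw [← h1, strFn_bits]
      have h2 : valB (gL Q.1).bits = gL Q.1 := valB_bits _
      rw [h2]

end Pool.Agent.Helper70K1.SS
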