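import Pool.Agent.Helper70K1.SS.Lang

/-!
# Parity predictable languages and counting
-/

set_option autoImplicit false

namespace Pool.Agent.Helper70K1.SS

open Pool.Agent.NPC Pool.Agent.Helper70K1.SP Pool.Agent.Helper70K1.PP
open Pool.Agent.NPC.Cnt (SharpP FP CNF satCount vars SatBy parsimonious)

open Classical in
/-- The recursive evaluation is correct, if the language of the bits of the words is predictable. -/
theorem runS_correct {P : Polynomial ℕ} {gg : List Bool → List (List Bool × Bool)}
    (hpred : ∀ (n : ℕ) (xs : List (List Bool)), (∀ x ∈ xs, x.length ≤ n) → P.eval n ≤ xs.length →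
      gg (bits xs) ≠ [] ∧
      (∀ e ∈ gg (bits xs), e.1.length = xs.length ∧ true ∈ e.1) ∧
      (P.eval n + 2) * (gg (bits xs)).length ≤
        2 * P.eval n * ((gg (bits xs)).filter (holds (xs.map fun x => decide (x ∈ LS)))).length)
    {m p n D : ℕ} {F : List (List (Bool × ℕ))} {os0 : List Op} [hprime : Fact (p + 1).Prime]
    (hM : (PMP P).eval m ≤ p + 1) (hD : p < D) (hpm : p < 2 ^ m)
    (h2M : 2 * (PE P).eval m ^ 2 < 2 ^ m) (hF : sz F ≤ m) (hos0 : sz os0 ≤ m) (hn : n < m)
    (hidx : ∀ o ∈ os0, o.2 < n) (hdeg : (F.map List.length).sum < m) :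
    ((runG p D (fun r => leafN p F r) (fun _ _ u w => (u + w) % (p + 1))
      (fun os r i => cdP gg P (List.replicate m (), p, F, os, r, i)) os0 (List.replicate n 0) : ℕ) :
        ZMod (p + 1)) = vS (leafC F) os0 (fun _ => 0) := by
  have hPM : (PMP P).eval m = (PKP P).eval m * (PKP P).eval m * m + m + 2 := by
    simp [PMP]
  have hrc := runG_correct (p := p) (D := D) (m := m) (n := n)
    (K := (PKP P).eval m) (lv := fun r => leafN p F r)
    (cm := fun _ _ u w => (u + w) % (p + 1))
    (cd := fun os r i => cdP gg P (List.replicate m (), p, F, os, r, i))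
    (vf := vS (leafC F)) (os0 := os0) (by omega) (by omega)
    (by omega) hidx (fun r _ _ => cast_leafN p F r) ?_ ?_
    os0 (List.replicate n 0) List.suffix_rfl (by simp) (by
      intro a ha
      rw [List.eq_of_mem_replicate ha]
      exact Nat.zero_le _)
  · rw [hrc]
    congr 1
    funext i
    unfold pt
    by_cases hi : i < n
    · rw [List.getD_eq_getElem _ _ (by simpa using hi)]
      simp
    · rw [List.getD_eq_getElem?_getD, List.getElem?_eq_none (by simpa using hi)]
      simp
  · -- the combinations
    rintro ⟨o, i⟩ os r u w hrl hra hi hu hw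
    rw [cast_mod, Nat.cast_add, hu, hw]
    rfl
  · -- the candidates
    intro os r i hos hne hrl hra hi
    set I : Ins := (List.replicate m (), p, F, os, r, i) with hI
    have hIm : I.m = m := by
      change (List.replicate m ()).length = m
      simp
    have hIp : I.p = p := rfl
    have hidx' : ∀ o ∈ I.os, o.2 < I.r.length := fun o ho => by
      change o.2 < r.length
      rw [hrl]
      exact hidx o (hos.subset ho)
    have hprime' : Fact (I.p + 1).Prime := hprime
    have hV : GoodS I (vI I (gI I)) := good_vI (by rw [hIm]; exact hpm) (by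
      change i < r.length
      omega) (fun a ha => hra a ha) (by rw [hIm]; exact hdeg)
    set V := vI I (gI I) with hVdef
    refine ⟨?_, ?_, cf I.m V, ?_, hV.2.2⟩
    · have h1 := length_cdP_le gg P I
      rw [hIm] at h1
      exact h1
    · intro cs hcs
      have h1 := cdP_spec gg P I cs hcs
      rw [hIm, hIp] at h1
      exact h1
    · unfold cdP
      rw [List.mem_filter, List.mem_map, List.all_eq_true]
      refine ⟨⟨V, ?_, rfl⟩, fun a ha => by simpa using hV.2.1 a ha⟩
      set M := (PE P).eval I.m with hM'
      have hM0 : 0 < M := PE_pos _ _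
      obtain ⟨hr0, hr1', hr2'⟩ := rrP_spec hM0
      obtain ⟨hfl, hz⟩ := findF_spec hr0
      set fl := findF (rrP M) with hfl'
      have hMm : 2 * M ^ 2 < 2 ^ m := by
        rw [hM', hIm]
        exact h2M
      have hrm : rrP M ≤ m := Nat.size_le.2 hMm
      have h1 := mem_listP (g := gg) (qb := fun j q t i => bits ((I, j, q, fl, t, i) : QryP))
        (M := M) (N := nnP M) (r := rrP M) (f := fl) (L := LS) (V := V) (μ := I.m * I.m)
        hr0 hfl hz (param_okP hM0 (mm_le_PE P I.m)) hr1' le_rfl (nnP_pos hM0) ?_ ?_
        (I.m * I.m) le_rfl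
      · rwa [Nat.mod_eq_of_lt hV.1] at h1
      · intro j q t i' _
        rw [mem_LS hidx' hV.1]
        have e : bitP fl t (V % 2 ^ j % q) i' = wd (rrP M) fl (hh (rrP M) fl cc t 0
            (V % 2 ^ j % q)) (hh (rrP M) fl cc t cc (V % 2 ^ j % q)) i' := by
          unfold bitP
          rw [hfl]
        rw [← e]
      · intro j hj q hq t ht
        have hlen : ((List.range M).map fun i' => bits ((I, j, q, fl, t, i') : QryP)).length = M := by
          simp
        obtain ⟨h2, h3, h4⟩ := hpred (PP.PN.eval m)
          ((List.range M).map fun i' => bits ((I, j, q, fl, t, i') : QryP)) (by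
            intro y hy
            obtain ⟨i', hi', rfl⟩ := List.mem_map.1 hy
            rw [List.mem_range] at hi'
            rw [bits_length, hI]
            rw [hIm] at hj
            refine sz_queryP hpm (by omega) ((sz_suffix hos).trans (by omega)) (by omega) hra
              (by omega) hj hrm (by omega) hq hfl ht (lt_of_lt_of_le hi' ?_)
            have := Nat.le_self_pow (n := 2) (by norm_num) M
            omega) (by
            rw [hlen, hM', PE_eval, hIm]
            omega)
        rw [hlen] at h3
        refine ⟨⟨h2, h3⟩, ?_⟩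
        set E := gg (bits ((List.range M).map fun i' => bits ((I, j, q, fl, t, i') : QryP))) with hE
        have h5 : 0 < E.length := List.length_pos_iff.2 h2
        have h6 : P.eval (PP.PN.eval m) ≤ M := by
          rw [hM', PE_eval, hIm]
          omega
        unfold cor
        set X := (E.filter (holds (((List.range M).map fun i' =>
          bits ((I, j, q, fl, t, i') : QryP)).map fun x => decide (x ∈ LS)))).length with hX
        set Q := P.eval (PP.PN.eval m) with hQ
        have h7 : E.length ≤ 2 * X := by
          by_contra hcon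
          push Not at hcon
          have : 2 * Q * X ≤ Q * E.length := by nlinarith
          nlinarith
        have h8 : Q * ((M + 2) * E.length) ≤ Q * (2 * M * X) := by
          nlinarith
        rcases Nat.eq_zero_or_pos Q with h9 | h9
        · exfalso
          rw [h9] at h4
          have h10 : (0 + 2) * E.length ≤ 2 * 0 * X := h4
          omega
        · exact Nat.le_of_mul_le_mul_left h8 h9

/-! ### Complexity of the formulas -/

variable {α : Type} [TEnc α]

theorem sz_filter_le' (p : ℕ → Bool) : ∀ l : List ℕ, sz (l.filter p) ≤ sz l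
  | [] => le_rfl
  | a :: l => by
    have ih := sz_filter_le' p l
    rw [List.filter_cons]
    split_ifs
    · rw [sz_list_cons, sz_list_cons]; omega
    · rw [sz_list_cons]; omega

theorem sz_uq_le : ∀ l : List ℕ, sz (uq l) ≤ sz l
  | [] => le_rfl
  | a :: l => by
    have ih := sz_uq_le l
    have h1 := sz_filter_le' (fun b => !decide (b = a)) (uq l)
    rw [uq_cons, sz_list_cons, sz_list_cons]
    omega

@[fun_prop]
theorem poly_uq {l : α → List ℕ} (hl : NPC.Poly l) : NPC.Poly (fun a => uq (l a)) := by
  obtain ⟨r, hr⟩ := hl.sz_le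
  refine NPC.Poly.foldr (l := l) (s := fun _ => ([] : List ℕ))
    (F := fun _ a acc => a :: acc.filter fun b => !decide (b = a)) hl (NPC.Poly.const _)
    (by fun_prop) r fun a k hk => ?_
  exact (sz_uq_le _).trans ((Poly.sz_drop_le _ _).trans (hr a))

theorem idxOf_eq_aux (v : ℕ) : ∀ (l : List ℕ) (n : ℕ),
    ((((l.zipIdx n).filter fun q => decide (q.1 = v)).head?.map fun q => q.2).getD
      (n + l.length)) = n + l.idxOf v
  | [], n => by simp
  | a :: l, n => by
    rw [List.zipIdx_cons]
    by_cases h : a = v
    · subst h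
      simp
    · rw [List.filter_cons_of_neg (by simpa using h), List.idxOf_cons_ne _ h, List.length_cons]
      have := idxOf_eq_aux v l (n + 1)
      rw [show n + (l.length + 1) = n + 1 + l.length by ring, this]
      omega

@[fun_prop]
theorem poly_idxOf {l : α → List ℕ} {v : α → ℕ} (hl : NPC.Poly l) (hv : NPC.Poly v) :
    NPC.Poly (fun a => (l a).idxOf (v a)) := by
  have h : NPC.Poly (fun a => ((((l a).zipIdx.filter fun q => decide (q.1 = v a)).head?.map
      fun q => q.2).getD (l a).length)) := by fun_prop
  refine h.congr fun a => ?_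
  have := idxOf_eq_aux (v a) (l a) 0
  simpa using this

theorem poly_vl {φ : α → CNF ℕ} (h : NPC.Poly φ) : NPC.Poly (fun a => vl (φ a)) := by
  unfold vl
  fun_prop

theorem poly_rf {φ : α → CNF ℕ} (h : NPC.Poly φ) : NPC.Poly (fun a => rf (φ a)) := by
  have h1 := poly_vl h
  unfold rf ren
  refine NPC.Poly.map (F := fun a (c : List (Bool × ℕ)) => c.map fun l =>
    (l.1, (vl (φ a)).idxOf l.2)) h ?_
  refine NPC.Poly.map (F := fun (x : α × List (Bool × ℕ)) (l : Bool × ℕ) =>
    (l.1, (vl (φ x.1)).idxOf l.2)) (NPC.Poly.snd NPC.Poly.id) ?_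
  have h2 : NPC.Poly (fun x : (α × List (Bool × ℕ)) × (Bool × ℕ) => vl (φ x.1.1)) :=
    h1.comp (NPC.Poly.fst (NPC.Poly.fst NPC.Poly.id))
  fun_prop

theorem poly_ro {φ : α → CNF ℕ} (h : NPC.Poly φ) : NPC.Poly (fun a => ro (φ a)) := by
  have h1 := poly_vl h
  unfold ro
  refine NPC.Poly.map (F := fun a (v : ℕ) => ((none, (vl (φ a)).idxOf v) : Op)) h1 ?_
  have h2 : NPC.Poly (fun x : α × ℕ => vl (φ x.1)) := h1.comp (NPC.Poly.fst NPC.Poly.id)
  fun_prop

/-! ### The main theorem -/

/-- The number of primes needed. -/
noncomputable def PAS (P : Polynomial ℕ) : Polynomial ℕ := PMP P + Polynomial.X + Polynomial.C 3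

/-- The bound for the primes. -/
noncomputable def PDS (P : Polynomial ℕ) : Polynomial ℕ :=
  Polynomial.C 2 * (PAS P + Polynomial.C 4) ^ 2 + Polynomial.C 1

/-- The list of primes. -/
def prs (M D : ℕ) : List ℕ := (List.range D).filter fun q => decide (M < q) && primeN D q

theorem mem_prs {M D q : ℕ} : q ∈ prs M D ↔ q < D ∧ M < q ∧ q.Prime := by
  unfold prs
  rw [List.mem_filter, List.mem_range, Bool.and_eq_true, decide_eq_true_eq]
  constructor
  · rintro ⟨h1, h2, h3⟩
    exact ⟨h1, h2, (primeN_iff h1.le).1 h3⟩
  · rintro ⟨h1, h2, h3⟩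
    exact ⟨h1, h2, (primeN_iff h1.le).2 h3⟩

theorem nodup_prs (M D : ℕ) : (prs M D).Nodup := List.nodup_range.filter _

theorem length_prs {M m : ℕ} : m + 2 ≤ (prs M (2 * (M + m + 3 + 4) ^ 2 + 1)).length := by
  set D := 2 * (M + m + 3 + 4) ^ 2 + 1 with hD
  have h1 := card_primes (M + m + 3)
  rw [← hD] at h1
  rw [← List.toFinset_card_of_nodup (nodup_prs M D)]
  have h2 : (Finset.range D).filter Nat.Prime ⊆ (prs M D).toFinset ∪ Finset.range (M + 1) := by
    intro q hq
    rw [Finset.mem_filter, Finset.mem_range] at hq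
    rw [Finset.mem_union, List.mem_toFinset, mem_prs, Finset.mem_range]
    by_cases h : M < q
    · exact Or.inl ⟨hq.1, h, hq.2⟩
    · exact Or.inr (by omega)
  have h3 := (Finset.card_le_card h2).trans (Finset.card_union_le _ _)
  rw [Finset.card_range] at h3
  omega

theorem satCount_le (φ : CNF ℕ) : satCount φ ≤ 2 ^ (vl φ).length := by
  unfold satCount
  refine (Finset.card_filter_le _ _).trans ?_
  have h1 : (vl φ).toFinset.card = (vl φ).length := List.toFinset_card_of_nodup (uq_nodup _)
  rw [Finset.card_powerset, ← vl_toFinset, h1]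

end Pool.Agent.Helper70K1.SS
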