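import Pool.Agent.Helper70K1.SP.AlgG

/-!
# Sums of arithmetized formulas over `0` and `1`
-/

set_option autoImplicit false

namespace Pool.Agent.Helper70K1.SS

open Pool.Agent.NPC Pool.Agent.Helper70K1.SP
open Polynomial

section Semi

variable {R S : Type} [CommSemiring R] [CommSemiring S]

/-- The sum of the values over all values `0`, `1` of the variables of the operations. -/
def vS (leaf : (ℕ → R) → R) : List Op → (ℕ → R) → R
  | [], r => leaf r
  | o :: os, r => vS leaf os (Function.update r o.2 0) + vS leaf os (Function.update r o.2 1)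

/-- The arithmetized formula, with `P` in place of `-1`. -/
def lf (P : R) (F : List (List (Bool × ℕ))) (r : ℕ → R) : R :=
  (F.map fun c => 1 + P * (c.map fun l => if l.1 = true then 1 + P * r l.2 else r l.2).prod).prod

theorem map_lf (φ : R →+* S) (P : R) (F : List (List (Bool × ℕ))) (r : ℕ → R) :
    φ (lf P F r) = lf (φ P) F (fun j => φ (r j)) := by
  unfold lf
  rw [map_list_prod, List.map_map]
  congr 1
  refine List.map_congr_left fun c _ => ?_
  simp only [Function.comp, map_add, map_one, map_mul, map_list_prod, List.map_map]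
  congr 3
  refine List.map_congr_left fun l _ => ?_
  simp only [Function.comp]
  split_ifs <;> simp

theorem map_vS (φ : R →+* S) {leaf : (ℕ → R) → R} {leaf' : (ℕ → S) → S}
    (h : ∀ r, φ (leaf r) = leaf' (fun j => φ (r j))) : ∀ (os : List Op) (r : ℕ → R),
    φ (vS leaf os r) = vS leaf' os (fun j => φ (r j))
  | [], r => h r
  | o :: os, r => by
    have e : ∀ b : R, (fun j => φ (Function.update r o.2 b j)) =
        Function.update (fun j => φ (r j)) o.2 (φ b) := by
      intro b
      funext j
      by_cases hj : j = o.2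
      · subst hj; simp
      · simp [Function.update_of_ne hj]
    rw [vS, vS, map_add, map_vS φ h os, map_vS φ h os, e, e, map_zero, map_one]

end Semi

theorem lf_neg_one {R : Type} [CommRing R] (F : List (List (Bool × ℕ))) (r : ℕ → R) :
    lf (-1) F r = leafC F r := by
  unfold lf leafC
  congr 1
  refine List.map_congr_left fun c _ => ?_
  simp only [neg_mul, one_mul, ← sub_eq_add_neg]

theorem cast_self_eq (p : ℕ) : ((p : ℕ) : ZMod (p + 1)) = -1 := by
  have h : ((p + 1 : ℕ) : ZMod (p + 1)) = 0 := ZMod.natCast_self _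
  rw [Nat.cast_add, Nat.cast_one] at h
  exact eq_neg_of_add_eq_zero_left h

/-! ### Degrees -/

theorem natDegree_lf (P : ℕ) (F : List (List (Bool × ℕ))) {r : ℕ → ℕ[X]}
    (hr : ∀ j, (r j).natDegree ≤ 1) : (lf (C P) F r).natDegree ≤ (F.map List.length).sum := by
  have h1 : ∀ c : List (Bool × ℕ), (c.map fun l => if l.1 = true then 1 + C P * r l.2 else
      r l.2).prod.natDegree ≤ c.length := by
    intro c
    induction c with
    | nil => simp
    | cons l c ih =>
      rw [List.map_cons, List.prod_cons, List.length_cons]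
      have h2 : (if l.1 = true then 1 + C P * r l.2 else r l.2).natDegree ≤ 1 := by
        split_ifs
        · refine (natDegree_add_le _ _).trans (max_le (by simp) ?_)
          exact (natDegree_C_mul_le _ _).trans (hr _)
        · exact hr _
      have := natDegree_mul_le (p := if l.1 = true then 1 + C P * r l.2 else r l.2)
        (q := (c.map fun l => if l.1 = true then 1 + C P * r l.2 else r l.2).prod)
      omega
  unfold lf
  induction F with
  | nil => simp
  | cons c F ih =>
    rw [List.map_cons, List.prod_cons, List.map_cons, List.sum_cons]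
    have h2 : (1 + C P * (c.map fun l => if l.1 = true then 1 + C P * r l.2 else
        r l.2).prod).natDegree ≤ c.length := by
      refine (natDegree_add_le _ _).trans (max_le (by simp) ?_)
      exact (natDegree_C_mul_le _ _).trans (h1 c)
    have := natDegree_mul_le (p := 1 + C P * (c.map fun l => if l.1 = true then 1 + C P * r l.2 else
        r l.2).prod) (q := (F.map fun c => 1 + C P * (c.map fun l => if l.1 = true then
          1 + C P * r l.2 else r l.2).prod).prod)
    omega

theorem natDegree_vS {leaf : (ℕ → ℕ[X]) → ℕ[X]} {d : ℕ}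
    (h : ∀ r : ℕ → ℕ[X], (∀ j, (r j).natDegree ≤ 1) → (leaf r).natDegree ≤ d) :
    ∀ (os : List Op) (r : ℕ → ℕ[X]), (∀ j, (r j).natDegree ≤ 1) → (vS leaf os r).natDegree ≤ d
  | [], r, hr => h r hr
  | o :: os, r, hr => by
    have h1 : ∀ b : ℕ[X], b.natDegree ≤ 1 → ∀ j, (Function.update r o.2 b j).natDegree ≤ 1 := by
      intro b hb j
      by_cases hj : j = o.2
      · subst hj; simpa using hb
      · rw [Function.update_of_ne hj]; exact hr j
    rw [vS]
    refine (natDegree_add_le _ _).trans (max_le ?_ ?_)
    · exact natDegree_vS h os _ (h1 0 (by simp))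
    · exact natDegree_vS h os _ (h1 1 (by simp))

/-! ### Bounds -/

theorem lf_mono (P : ℕ) (F : List (List (Bool × ℕ))) {r : ℕ → ℕ} {K : ℕ} (hr : ∀ j, r j ≤ K) :
    lf P F r ≤ lf P F (fun _ => K) := by
  have h1 : ∀ c : List (Bool × ℕ), (c.map fun l => if l.1 = true then 1 + P * r l.2 else
      r l.2).prod ≤ (c.map fun l => if l.1 = true then 1 + P * K else K).prod := by
    intro c
    induction c with
    | nil => simp
    | cons l c ih =>
      rw [List.map_cons, List.prod_cons, List.map_cons, List.prod_cons]
      refine Nat.mul_le_mul ?_ ih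
      split_ifs
      · exact Nat.add_le_add_left (Nat.mul_le_mul_left _ (hr _)) _
      · exact hr _
  unfold lf
  induction F with
  | nil => simp
  | cons c F ih =>
    rw [List.map_cons, List.prod_cons, List.map_cons, List.prod_cons]
    exact Nat.mul_le_mul (Nat.add_le_add_left (Nat.mul_le_mul_left _ (h1 c)) _) ih

theorem vS_le (P : ℕ) (F : List (List (Bool × ℕ))) {K : ℕ} (hK : 1 ≤ K) :
    ∀ (os : List Op) (r : ℕ → ℕ), (∀ j, r j ≤ K) →
      vS (lf P F) os r ≤ 2 ^ os.length * lf P F (fun _ => K)
  | [], r, hr => by simpa [vS] using lf_mono P F hr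
  | o :: os, r, hr => by
    have h1 : ∀ b : ℕ, b ≤ K → ∀ j, Function.update r o.2 b j ≤ K := by
      intro b hb j
      by_cases hj : j = o.2
      · subst hj; simpa using hb
      · rw [Function.update_of_ne hj]; exact hr j
    rw [vS, List.length_cons, pow_succ]
    have h2 := vS_le P F hK os _ (h1 0 (Nat.zero_le _))
    have h3 := vS_le P F hK os _ (h1 1 hK)
    calc _ ≤ 2 ^ os.length * lf P F (fun _ => K) + 2 ^ os.length * lf P F (fun _ => K) :=
          Nat.add_le_add h2 h3
      _ = 2 ^ os.length * 2 * lf P F (fun _ => K) := by ring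

/-! ### The number of an instance -/

/-- The bound for the coefficients. -/
def bI (I : Ins) : ℕ := 2 ^ I.os.length * lf I.p I.F (fun _ => I.p + 1) + 1

/-- The polynomial of an instance. -/
noncomputable def qI (I : Ins) : ℕ[X] :=
  vS (lf (C I.p) I.F) I.os (fun j => if j = I.i then X else C (I.r.getD j 0))

/-- The big value of an instance. -/
def gI (I : Ins) : ℕ :=
  vS (lf I.p I.F) I.os (fun j => (I.r.set I.i (bI I)).getD j 0)

/-- The number coding the round polynomial, computed from the big value. -/
def vI (I : Ins) (G : ℕ) : ℕ :=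
  Nat.ofDigits (2 ^ I.m) ((List.range I.m).map fun j => G / (bI I) ^ j % (bI I) % (I.p + 1))

theorem natDegree_qI (I : Ins) : (qI I).natDegree ≤ (I.F.map List.length).sum := by
  refine natDegree_vS (fun r hr => natDegree_lf _ _ hr) _ _ fun j => ?_
  split_ifs
  · exact natDegree_X_le
  · simp

theorem eval_qI (I : Ins) (b : ℕ) : (qI I).eval b =
    vS (lf I.p I.F) I.os (fun j => if j = I.i then b else I.r.getD j 0) := by
  have h := map_vS (evalRingHom b) (leaf := lf (C I.p) I.F) (leaf' := lf I.p I.F)
    (fun r => by rw [map_lf]; simp) I.os (fun j => if j = I.i then X else C (I.r.getD j 0))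
  rw [coe_evalRingHom] at h
  unfold qI
  rw [h]
  congr 1
  funext j
  split_ifs <;> simp

theorem getD_set_eq {r : List ℕ} {i : ℕ} (hi : i < r.length) (b : ℕ) :
    (fun j => (r.set i b).getD j 0) = fun j => if j = i then b else r.getD j 0 := by
  funext j
  by_cases hj : j = i
  · subst hj
    rw [if_pos rfl, List.getD_eq_getElem _ _ (by simpa using hi), List.getElem_set_self]
  · rw [if_neg hj, List.getD_eq_getElem?_getD, List.getElem?_set_ne (Ne.symm hj),
      List.getD_eq_getElem?_getD]

theorem gI_eq {I : Ins} (hi : I.i < I.r.length) : gI I = (qI I).eval (bI I) := by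
  rw [eval_qI, gI, getD_set_eq hi]

theorem coeff_qI_lt {I : Ins} (hr : ∀ a ∈ I.r, a ≤ I.p) (j : ℕ) : (qI I).coeff j < bI I := by
  have h1 : (qI I).coeff j ≤ (qI I).eval 1 := by
    rw [eval_eq_sum_range]
    by_cases hj : j < (qI I).natDegree + 1
    · have h2 := Finset.single_le_sum (f := fun i => (qI I).coeff i * 1 ^ i)
        (fun i _ => Nat.zero_le _) (Finset.mem_range.2 hj)
      simpa using h2
    · rw [coeff_eq_zero_of_natDegree_lt (by omega)]
      exact Nat.zero_le _
  rw [eval_qI] at h1
  have h2 := vS_le I.p I.F (K := I.p + 1) (by omega) I.os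
    (fun j => if j = I.i then 1 else I.r.getD j 0) (fun j => by
      split_ifs
      · omega
      · by_cases hj : j < I.r.length
        · rw [List.getD_eq_getElem _ _ hj]
          have := hr _ (List.getElem_mem hj)
          omega
        · rw [List.getD_eq_getElem?_getD, List.getElem?_eq_none (by omega)]
          simp)
  unfold bI
  omega

theorem ofDigits_range (c : ℕ → ℕ) (b : ℕ) : ∀ m : ℕ,
    Nat.ofDigits b ((List.range m).map c) = ∑ j ∈ Finset.range m, c j * b ^ j
  | 0 => by simp
  | m + 1 => by
    rw [List.range_succ, List.map_append, Nat.ofDigits_append, ofDigits_range c b m,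
      Finset.sum_range_succ]
    simp [mul_comm]

theorem ofDigits_coeff (Q : ℕ[X]) (b m : ℕ) (h : Q.natDegree < m) :
    Nat.ofDigits b ((List.range m).map fun j => Q.coeff j) = Q.eval b := by
  rw [eval_eq_sum_range' h, ofDigits_range]

theorem digit_gI {I : Ins} (hi : I.i < I.r.length) (hr : ∀ a ∈ I.r, a ≤ I.p)
    (hd : (I.F.map List.length).sum < I.m) (j : ℕ) (hj : j < I.m) :
    gI I / (bI I) ^ j % (bI I) = (qI I).coeff j := by
  rw [gI_eq hi, ← ofDigits_coeff _ _ _ (lt_of_le_of_lt (natDegree_qI I) hd),
    ofDigits_digit (by unfold bI; omega)]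
  · rw [List.getD_eq_getElem _ _ (by simpa using hj)]
    simp
  · intro c hc
    obtain ⟨k, _, rfl⟩ := List.mem_map.1 hc
    exact coeff_qI_lt hr k

/-- The number `V` codes the polynomial of the function of one variable given by the instance. -/
def GoodS (I : Ins) (V : ℕ) : Prop :=
  V < 2 ^ (I.m * I.m) ∧ (∀ c ∈ cf I.m V, c ≤ I.p) ∧
    ∀ t ≤ I.p, vS (leafC I.F) I.os (Function.update (pt I.p I.r) I.i (t : ZMod (I.p + 1))) =
      (evalN I.p (cf I.m V) t : ZMod (I.p + 1))

theorem good_vI {I : Ins} (hp : I.p < 2 ^ I.m) (hi : I.i < I.r.length) (hr : ∀ a ∈ I.r, a ≤ I.p)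
    (hd : (I.F.map List.length).sum < I.m) : GoodS I (vI I (gI I)) := by
  set cs := (List.range I.m).map fun j => gI I / (bI I) ^ j % (bI I) % (I.p + 1) with hcs
  have hle : ∀ c ∈ cs, c ≤ I.p := by
    intro c hc
    obtain ⟨j, _, rfl⟩ := List.mem_map.1 hc
    exact Nat.lt_succ_iff.1 (Nat.mod_lt _ (Nat.succ_pos _))
  have hlt : ∀ c ∈ cs, c < 2 ^ I.m := fun c hc => lt_of_le_of_lt (hle c hc) hp
  have hl : cs.length = I.m := by simp [hcs]
  have hcf : cf I.m (vI I (gI I)) = cs := cf_ofDigits hl hlt
  have hm : 0 < I.m := by omega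
  refine ⟨ofDigits_lt hm hl hlt, by rw [hcf]; exact hle, fun t ht => ?_⟩
  rw [hcf, cast_evalN]
  -- the polynomial
  have hpoly : plc I.p cs = (qI I).map (Nat.castRingHom (ZMod (I.p + 1))) := by
    ext j
    rw [coeff_plc, coeff_map]
    by_cases hj : j < I.m
    · rw [List.getD_eq_getElem _ _ (by rw [hl]; exact hj)]
      simp only [hcs, List.getElem_map, List.getElem_range]
      rw [cast_mod, digit_gI hi hr hd j hj]
      simp
    · rw [List.getD_eq_getElem?_getD, List.getElem?_eq_none (by omega),
        coeff_eq_zero_of_natDegree_lt (by have := natDegree_qI I; omega)]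
      simp
  rw [hpoly]
  have h := map_vS ((evalRingHom (t : ZMod (I.p + 1))).comp
    (mapRingHom (Nat.castRingHom (ZMod (I.p + 1))))) (leaf := lf (C I.p) I.F)
    (leaf' := lf (-1) I.F)
    (fun r => by
      rw [map_lf]
      simp only [RingHom.comp_apply, coe_mapRingHom, map_C, coe_evalRingHom, eval_C]
      rw [← cast_self_eq]
      rfl) I.os (fun j => if j = I.i then X else C (I.r.getD j 0))
  simp only [RingHom.comp_apply, coe_mapRingHom, coe_evalRingHom] at h
  unfold qI
  rw [h]
  have e1 : (lf (-1 : ZMod (I.p + 1)) I.F) = leafC I.F := funext fun r => lf_neg_one _ _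
  rw [e1]
  congr 1
  funext j
  by_cases hj : j = I.i
  · subst hj
    simp
  · rw [Function.update_of_ne hj, if_neg hj, map_C, eval_C]
    rfl

end Pool.Agent.Helper70K1.SS
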